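import Pool.Agent.TH464.PO.Gold

set_option autoImplicit false

/-!
# Almost prime Goldbach pairs: the gaps, uniformly in the even number `N`

Fix `θ > 0` and an accuracy `ε`. For every `r ≥ r0` and ALL large even `N` call `m < N` good if `m` and
`N - m` have fewer than `r` prime factors, all larger than `N ^ (1 / r)`. In every interval
`(Z, Z + Y]` of length `Y ≥ N ^ θ` below `N` the gaps between consecutive good integers are, in the scale
`1 / V`, exponentially distributed up to `ε`, uniformly in all gap lengths, and the distances to the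
`l`-th good predecessor are Gamma distributed; `V` is the product over the primes `p ≤ N ^ (1 / r)` of
`1 - 1 / p` or `1 - 2 / p`, as `p` divides `N` or not.
-/

namespace Pool.Agent.Results.MP_92f640_nt.GapsUniformInN

open Finset Filter

/-- `m < N`, and `m` and `N - m` have fewer than `r` prime factors (with multiplicity), all of them larger
than `N ^ (1 / r)`. -/
def GoodPair (r N m : ℕ) : Prop :=
  m < N ∧ (m.primeFactorsList.length < r ∧
    ∀ p : ℕ, p.Prime → p ∣ m → (N : ℝ) ^ (1 / (r : ℝ)) < (p : ℝ)) ∧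
  ((N - m).primeFactorsList.length < r ∧
    ∀ p : ℕ, p.Prime → p ∣ N - m → (N : ℝ) ^ (1 / (r : ℝ)) < (p : ℝ))

open Classical in
/-- The number of the good `m` in `(Z, Z + Y]` with fewer than `l` good integers in `[m - T, m)`, that is,
whose `l`-th good predecessor is at distance more than `T`. -/
noncomputable def Far (r N Z Y l T : ℕ) : ℕ :=
  ((Finset.Ioc Z (Z + Y)).filter (fun m => GoodPair r N m ∧
    ((Finset.Ico (m - T) m).filter (fun j => GoodPair r N j)).card < l)).card

open Classical in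
/-- The sieve density. -/
noncomputable def V (r N : ℕ) : ℝ :=
  ∏ p ∈ (Finset.range (⌊(N : ℝ) ^ (1 / (r : ℝ))⌋₊ + 1)).filter Nat.Prime,
    (1 - (if p ∣ N then 1 else 2) / (p : ℝ))

open Pool.Agent.TH464.PO Pool.Agent.W123.RU Pool.Agent.H373R2.T7 Pool.Agent.W123.RP

open Classical in
/-- **The gap laws for almost prime Goldbach pairs, uniformly in `N`.** -/
theorem result (θ : ℝ) (hθ : 0 < θ) (l0 : ℕ) (x ε : ℝ) (hε : 0 < ε) :
    ∃ r0 : ℕ, ∀ r : ℕ, r0 ≤ r → ∀ᶠ N : ℕ in atTop, 2 ∣ N → ∀ Z Y : ℕ, (N : ℝ) ^ θ ≤ Y →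
      Z + Y ≤ N → ∀ l T : ℕ, (l ≤ l0 ∨ T * V r N ≤ x) →
        |(Far r N Z Y l T : ℝ) - Y * V r N *
          ∑ j ∈ Finset.range l, Real.exp (-(T * V r N)) * (T * V r N) ^ j / j.factorial| ≤
            ε * (Y * V r N) := by
  obtain ⟨r0, h0⟩ := lin 2 1 (by norm_num) θ hθ l0 x ε hε
  refine ⟨max r0 1, ?_⟩
  intro r hr
  have hr1 : 1 ≤ r := (le_max_right _ _).trans hr
  have hrr : (1 : ℝ) ≤ r := by exact_mod_cast hr1
  have hpow1 : Tendsto (fun X : ℕ => (X : ℝ) ^ (1 / (r : ℝ))) atTop atTop :=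
    (tendsto_rpow_atTop (by positivity)).comp tendsto_natCast_atTop_atTop
  have hR : ∀ᶠ X : ℕ in atTop, Real.log X ^ (2 + 1) < X := by
    filter_upwards [Pool.Agent.TH464.PW.logpow_rpow 3 2 1 (by norm_num) one_pos,
      eventually_ge_atTop 3] with X hX hX3
    rw [Real.rpow_one] at hX
    have h1 : 0 < Real.log (X : ℝ) ^ 3 := by
      apply pow_pos
      exact Real.log_pos (by exact_mod_cast (by omega : 1 < X))
    have e : (2 + 1 : ℕ) = 3 := rfl
    rw [e]
    linarith
  filter_upwards [h0 r ((le_max_left _ _).trans hr), hpow1.eventually_ge_atTop 2, hR,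
    eventually_ge_atTop 3] with N hX h2 hRN h3
  intro hN Z Y hXY hZ l T hT
  have hV : Vq (QL gu (gv N)) ⌊(N : ℝ) ^ (1 / (r : ℝ))⌋₊ = V r N := gold_V N _
  have hmain := (hX gu (gv N) (gLF N hN h3 _ hRN) Z Y hXY).2 l T (by rw [hV]; exact hT)
  rw [hV] at hmain
  have hcount : Far r N Z Y l T = Pk (Sf (QL gu (gv N)) ⌊(N : ℝ) ^ (1 / (r : ℝ))⌋₊) l T Z Y := by
    have hap : ∀ m : ℕ, m ≤ N → (GoodPair r N m ↔
        Sf (QL gu (gv N)) ⌊(N : ℝ) ^ (1 / (r : ℝ))⌋₊ m) := fun m hm =>
      (sf_GP r N hr1 (by omega) h2 m hm).symm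
    unfold Far Pk
    congr 1
    apply Finset.filter_congr
    intro m hm
    rw [mem_Ioc] at hm
    rw [hap m (by omega)]
    apply and_congr Iff.rfl
    have e : (Finset.Ico (m - T) m).filter (fun j => GoodPair r N j) =
        (Finset.Ico (m - T) m).filter (Sf (QL gu (gv N)) ⌊(N : ℝ) ^ (1 / (r : ℝ))⌋₊) := by
      apply Finset.filter_congr
      intro j hj
      rw [mem_Ico] at hj
      exact hap j (by omega)
    rw [e]
  rw [hcount]
  exact hmain

end Pool.Agent.Results.MP_92f640_nt.GapsUniformInN
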