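import Pool.Agent.TH786.GM.Final
import Pool.Agent.W93.GB1

/-!
# Goldbach representations of the multiples of `q`: the exceptional moduli have a divisor in a sparse set

For large `x`, all moduli `q ≤ √x (log x)^A`, except for the multiples of the members of a very sparse
set `D` of integers larger than `(log x)^A`, satisfy the assertion of the problem, and even the formula
of Hardy and Littlewood for all but at most `x / (q (log x)^A)` of the even multiples of `q` up to `x`.

Proof. For a set `R` of moduli between `Q` and `2 Q` consider the family of all even multiples of its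
members up to `x`. The number of solutions of `q₁ m₁ + ... + q_h m_h = q'₁ m'₁ + ... + q'_h m'_h` with
`m_i, m'_i ≤ M = x / Q` is at most a constant times `gcd(q_1, ..., q'_h) M^(2h-1) / Q`, if `Q ≤ M`. Hence
the theorem of the starting files on families of integers of small additive energy (`W93.GB.fam`) shows
that a set `R` of moduli all of which have many exceptional multiples satisfies
`∑ gcd(q_1, ..., q_(2h)) > (log x)^C |R|^(2h)`, and all of its nonempty subsets do. It follows that there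
is an integer `d > (log x)^A'` which divides at least `|R| d^(-η)` members of `R`; we remove these members
and repeat the argument.
-/

set_option autoImplicit false

namespace Pool.Agent.Results.MP_92f640_nt.SparseExceptionalModuli

open Pool.Agent.H560R3.GB (g HL)

/-- The even multiples `n` of `q` with `0 < n ≤ x` for which the formula of Hardy and Littlewood does not
hold with a relative error of at most `ε`, or which are not sums of two distinct primes. -/
def exceptional (ε x : ℝ) (q : ℕ) : Set ℕ :=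
  {n : ℕ | 0 < n ∧ (n : ℝ) ≤ x ∧ 2 ∣ n ∧ q ∣ n ∧
    ¬ (|(g n : ℝ) - HL n| ≤ ε * HL n ∧ ∃ p p' : ℕ, p.Prime ∧ p'.Prime ∧ p ≠ p' ∧ p + p' = n)}

/-- The even multiples `n` of `q` with `x / 2 < n ≤ x` and `g n < δ n / (log n)²`, as in the problem. -/
def few (δ x : ℝ) (q : ℕ) : Set ℕ :=
  {n : ℕ | x / 2 < n ∧ (n : ℝ) ≤ x ∧ 2 ∣ n ∧ q ∣ n ∧ (g n : ℝ) < δ * (n / Real.log n ^ 2)}

theorem exceptional_eq (ε x : ℝ) (q : ℕ) (hx : 0 ≤ x) :
    exceptional ε x q = ((Pool.Agent.TH786.GM.exc ε ⌊x⌋₊ q : Finset ℕ) : Set ℕ) := by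
  classical
  ext n
  constructor
  · rintro ⟨h1, h2, h3, h4, h5⟩
    exact Finset.mem_coe.2 (Finset.mem_filter.2 ⟨Finset.mem_Icc.2 ⟨h1, Nat.le_floor h2⟩, h3, h4, h5⟩)
  · intro h
    obtain ⟨h1, h3, h4, h5⟩ := Finset.mem_filter.1 (Finset.mem_coe.1 h)
    obtain ⟨h1, h2⟩ := Finset.mem_Icc.1 h1
    exact ⟨h1, (Nat.le_floor_iff hx).1 h2, h3, h4, h5⟩

theorem HL_nonneg (n : ℕ) : 0 ≤ HL n := by
  have h2 := Pool.Agent.W93.GB.one_le_sing n
  unfold Pool.Agent.H560R3.GB.HL
  positivity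

/-- For all `ε, ρ > 0` and `A` and all sufficiently large real `x` there is a finite set `D` of integers,
all of them larger than `(log x)^A`, with at most `y ^ ρ` members up to `y` for every `y ≥ 1`, such that
for every positive integer `q ≤ √x (log x)^A` which is not divisible by a member of `D`:
(1) all but at most `x / (q (log x)^A)` of the even multiples `n ≤ x` of `q` are sums of two distinct
primes and satisfy `|g n - HL n| ≤ ε HL n`;
(2) all but at most `x / (8 q)` of the even multiples `n` of `q` in `(x / 2, x]` satisfy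
`g n ≥ n / (2 (log n)²)`, which is the assertion of the problem for `q`, with `δ = 1 / 2`. -/
theorem result (ε ρ : ℝ) (hε : 0 < ε) (hρ : 0 < ρ) (A : ℕ) :
    ∃ x₀ : ℝ, ∀ x : ℝ, x₀ ≤ x → ∃ D : Finset ℕ,
      (∀ d ∈ D, Real.log x ^ A < (d : ℝ)) ∧
      (∀ y : ℝ, 1 ≤ y → ((D.filter (fun d : ℕ => (d : ℝ) ≤ y)).card : ℝ) ≤ y ^ ρ) ∧
      ∀ q : ℕ, 1 ≤ q → (q : ℝ) ≤ √x * Real.log x ^ A → (∀ d ∈ D, ¬ d ∣ q) →
        ((exceptional ε x q).Finite ∧ ((exceptional ε x q).ncard : ℝ) ≤ x / (q * Real.log x ^ A)) ∧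
        ((few (1 / 2) x q).Finite ∧ ((few (1 / 2) x q).ncard : ℝ) ≤ x / (8 * q)) := by
  classical
  obtain ⟨ε', hε'⟩ : ∃ ε', ε' = min ε (1 / 2) := ⟨_, rfl⟩
  have hε0 : 0 < ε' := by rw [hε']; exact lt_min hε (by norm_num)
  obtain ⟨N₀, h0⟩ := Pool.Agent.TH786.GM.main ε' ρ hε0 hρ (A + 2) (2 * A + 2)
  obtain ⟨x₁, hx₁⟩ : ∃ x₁ : ℝ, ∀ x : ℝ, x₁ ≤ x → 2 ^ (2 * A + 6) ≤ Real.log x := by
    have h := Real.tendsto_log_atTop.eventually_ge_atTop (2 ^ (2 * A + 6) : ℝ)
    exact Filter.eventually_atTop.1 h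
  obtain ⟨x₂, hx₂⟩ : ∃ x₂ : ℝ, ∀ x : ℝ, x₂ ≤ x → Real.log x ^ A ≤ √x := by
    have h := (isLittleO_log_rpow_rpow_atTop (A : ℝ) (show (0 : ℝ) < 1 / 2 by norm_num)).bound
      (show (0 : ℝ) < 1 by norm_num)
    obtain ⟨x₂, h2⟩ := Filter.eventually_atTop.1 h
    refine ⟨max x₂ 1, fun x hx => ?_⟩
    have h3 := h2 x ((le_max_left _ _).trans hx)
    have hx1 : 1 ≤ x := (le_max_right _ _).trans hx
    rw [one_mul, Real.rpow_natCast, Real.norm_of_nonneg (pow_nonneg (Real.log_nonneg hx1) _),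
      Real.norm_of_nonneg (Real.rpow_nonneg (by linarith) _), ← Real.sqrt_eq_rpow] at h3
    exact h3
  refine ⟨max (max ((N₀ : ℝ) + 4) x₁) x₂, fun x hx => ?_⟩
  have hxN : (N₀ : ℝ) + 4 ≤ x := (le_max_left _ _).trans ((le_max_left _ _).trans hx)
  have hlx := hx₁ x ((le_max_right _ _).trans ((le_max_left _ _).trans hx))
  have hsq := hx₂ x ((le_max_right _ _).trans hx)
  have hN₀ : (0 : ℝ) ≤ N₀ := Nat.cast_nonneg _
  have hx4 : 4 ≤ x := by linarith
  have hx0 : 0 < x := by linarith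
  obtain ⟨N, hN⟩ : ∃ N, N = ⌊x⌋₊ := ⟨_, rfl⟩
  have hNx : (N : ℝ) ≤ x := by rw [hN]; exact Nat.floor_le hx0.le
  have hxN1 : x < N + 1 := by rw [hN]; exact Nat.lt_floor_add_one x
  have hN0 : (0 : ℝ) < N := by linarith
  have hNN₀ : N₀ ≤ N := by
    rw [hN]
    exact Nat.le_floor (by linarith)
  obtain ⟨l, hl⟩ : ∃ l, l = Real.log x := ⟨_, rfl⟩
  obtain ⟨L, hL⟩ : ∃ L, L = Real.log N := ⟨_, rfl⟩
  rw [← hl] at hlx hsq ⊢
  have h64 : (64 : ℝ) ≤ 2 ^ (2 * A + 6) := by
    calc (64 : ℝ) = 2 ^ 6 := by norm_num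
      _ ≤ 2 ^ (2 * A + 6) := pow_le_pow_right₀ (by norm_num) (by omega)
  have hl64 : 64 ≤ l := by linarith
  have hLl : L ≤ l := by rw [hL, hl]; exact Real.log_le_log hN0 hNx
  have hlL : l / 2 ≤ L := by
    have h1 : x / 2 ≤ N := by linarith
    have h2 : Real.log (x / 2) ≤ L := by rw [hL]; exact Real.log_le_log (by linarith) h1
    rw [Real.log_div hx0.ne' (by norm_num), ← hl] at h2
    have h3 := Real.log_two_lt_d9
    linarith
  have hL0 : 0 < L := by linarith
  have hl0 : 0 < l := by linarith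
  have hpow : 8 * l ^ A ≤ L ^ (A + 2) := by
    have h1 : (l / 2) ^ (A + 2) ≤ L ^ (A + 2) := pow_le_pow_left₀ (by linarith) hlL _
    refine le_trans ?_ h1
    rw [div_pow, le_div_iff₀ (by positivity), pow_add l A 2]
    have h2 : (8 : ℝ) * 2 ^ (A + 2) ≤ l ^ 2 := by
      calc (8 : ℝ) * 2 ^ (A + 2) = 2 ^ (A + 5) := by rw [show A + 5 = 3 + (A + 2) by ring, pow_add 2 3]; norm_num
        _ ≤ 2 ^ (2 * A + 6) := pow_le_pow_right₀ (by norm_num) (by omega)
        _ ≤ l := hlx
        _ ≤ l ^ 2 := by nlinarith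
    calc 8 * l ^ A * 2 ^ (A + 2) = l ^ A * (8 * 2 ^ (A + 2)) := by ring
      _ ≤ l ^ A * l ^ 2 := mul_le_mul_of_nonneg_left h2 (by positivity)
  obtain ⟨D, hD1, hD2, hD3⟩ := h0 N hNN₀
  rw [← hL] at hD1 hD3
  refine ⟨D, ?_, hD2, ?_⟩
  · intro d hd
    have h1 := hD1 d hd
    have h2 : 0 ≤ l ^ A := by positivity
    linarith
  · intro q hq hqx hqD
    have hq0 : (0 : ℝ) < q := by exact_mod_cast hq
    have hs0 : 0 ≤ √x := Real.sqrt_nonneg x
    have hqle : q ≤ N := by
      rw [hN]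
      apply Nat.le_floor
      calc (q : ℝ) ≤ √x * l ^ A := hqx
        _ ≤ √x * √x := mul_le_mul_of_nonneg_left hsq hs0
        _ = x := Real.mul_self_sqrt hx0.le
    have hqq : (q : ℝ) * q ≤ N * L ^ (2 * A + 2) := by
      have h1 : (q : ℝ) * q ≤ (√x * l ^ A) * (√x * l ^ A) :=
        mul_le_mul hqx hqx hq0.le (by positivity)
      have h2 : (√x * l ^ A) * (√x * l ^ A) = x * l ^ (2 * A) := by
        calc (√x * l ^ A) * (√x * l ^ A) = (√x * √x) * (l ^ A * l ^ A) := by ring
          _ = x * l ^ (2 * A) := by rw [Real.mul_self_sqrt hx0.le, ← pow_add, ← two_mul]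
      have h3 : 2 * l ^ (2 * A) ≤ L ^ (2 * A + 2) := by
        have h4 : (l / 2) ^ (2 * A + 2) ≤ L ^ (2 * A + 2) := pow_le_pow_left₀ (by linarith) hlL _
        refine le_trans ?_ h4
        rw [div_pow, le_div_iff₀ (by positivity), pow_add l (2 * A) 2]
        have h5 : (2 : ℝ) * 2 ^ (2 * A + 2) ≤ l ^ 2 := by
          calc (2 : ℝ) * 2 ^ (2 * A + 2) = 2 ^ (2 * A + 3) := by
                rw [show 2 * A + 3 = 1 + (2 * A + 2) by ring, pow_add 2 1]; norm_num
            _ ≤ 2 ^ (2 * A + 6) := pow_le_pow_right₀ (by norm_num) (by omega)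
            _ ≤ l := hlx
            _ ≤ l ^ 2 := by nlinarith
        calc 2 * l ^ (2 * A) * 2 ^ (2 * A + 2) = l ^ (2 * A) * (2 * 2 ^ (2 * A + 2)) := by ring
          _ ≤ l ^ (2 * A) * l ^ 2 := mul_le_mul_of_nonneg_left h5 (by positivity)
      calc (q : ℝ) * q ≤ x * l ^ (2 * A) := h1.trans h2.le
        _ ≤ (2 * N) * l ^ (2 * A) := mul_le_mul_of_nonneg_right (by linarith) (by positivity)
        _ = N * (2 * l ^ (2 * A)) := by ring
        _ ≤ N * L ^ (2 * A + 2) := mul_le_mul_of_nonneg_left h3 hN0.le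
    have hmain := hD3 q hq hqle hqq hqD
    have hb8 : ((Pool.Agent.TH786.GM.exc ε' N q).card : ℝ) ≤ x / (8 * (q * l ^ A)) := by
      refine hmain.trans ?_
      rw [div_le_div_iff₀ (by positivity) (by positivity)]
      calc (N : ℝ) * (8 * (q * l ^ A)) ≤ x * (8 * (q * l ^ A)) :=
            mul_le_mul_of_nonneg_right hNx (by positivity)
        _ = (x * q) * (8 * l ^ A) := by ring
        _ ≤ (x * q) * L ^ (A + 2) := mul_le_mul_of_nonneg_left hpow (by positivity)
        _ = x * (q * L ^ (A + 2)) := by ring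
    have hlA : 1 ≤ l ^ A := one_le_pow₀ (by linarith)
    have hset : exceptional ε' x q = ((Pool.Agent.TH786.GM.exc ε' N q : Finset ℕ) : Set ℕ) := by
      rw [hN]; exact exceptional_eq ε' x q hx0.le
    have hsub1 : exceptional ε x q ⊆ exceptional ε' x q := by
      rintro n ⟨a1, a2, a3, a4, a5⟩
      refine ⟨a1, a2, a3, a4, ?_⟩
      rintro ⟨b1, b2⟩
      apply a5
      refine ⟨b1.trans ?_, b2⟩
      apply mul_le_mul_of_nonneg_right _ (HL_nonneg n)
      rw [hε']; exact min_le_left _ _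
    have hsub2 : few (1 / 2) x q ⊆ exceptional ε' x q := by
      rintro n ⟨a1, a2, a3, a4, a5⟩
      have hn0 : (0 : ℝ) < n := by linarith
      refine ⟨by exact_mod_cast hn0, a2, a3, a4, ?_⟩
      rintro ⟨b1, _⟩
      have h1 : (n : ℝ) / Real.log n ^ 2 ≤ HL n := by
        have h2 := Pool.Agent.W93.GB.one_le_sing n
        have h3 : (0 : ℝ) ≤ (n : ℝ) / Real.log n ^ 2 := by positivity
        unfold Pool.Agent.H560R3.GB.HL
        nlinarith
      have h3 : (0 : ℝ) ≤ (n : ℝ) / Real.log n ^ 2 := by positivity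
      have h2 : ε' ≤ 1 / 2 := by rw [hε']; exact min_le_right _ _
      have h4 := (abs_le.1 b1).1
      nlinarith
    have hfin : (exceptional ε' x q).Finite := by rw [hset]; exact Finset.finite_toSet _
    have hcard : ((exceptional ε' x q).ncard : ℝ) ≤ x / (8 * (q * l ^ A)) := by
      rw [hset, Set.ncard_coe_finset]
      exact hb8
    refine ⟨⟨hfin.subset hsub1, ?_⟩, ⟨hfin.subset hsub2, ?_⟩⟩
    · have h1 : ((exceptional ε x q).ncard : ℝ) ≤ (exceptional ε' x q).ncard := by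
        exact_mod_cast Set.ncard_le_ncard hsub1 hfin
      refine h1.trans (hcard.trans ?_)
      apply div_le_div_of_nonneg_left hx0.le (by positivity)
      have : 0 ≤ (q : ℝ) * l ^ A := by positivity
      linarith
    · have h1 : ((few (1 / 2) x q).ncard : ℝ) ≤ (exceptional ε' x q).ncard := by
        exact_mod_cast Set.ncard_le_ncard hsub2 hfin
      refine h1.trans (hcard.trans ?_)
      apply div_le_div_of_nonneg_left hx0.le (by positivity)
      have : (q : ℝ) ≤ q * l ^ A := le_mul_of_one_le_right hq0.le hlA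
      linarith

end Pool.Agent.Results.MP_92f640_nt.SparseExceptionalModuli
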