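import Pool.Agent.TH345.GBM.B

/-!
# Goldbach representations of all the even multiples, in `(x / 2, x]`, of almost all members `q` of
arbitrary thin families of moduli `q ≥ x / log ^ A x`

Definition used from `Pool.Agent.H560R3.GB`: `sing n`: the singular series
`2 C₂ ∏_{p ∣ n, p > 2} (p - 1) / (p - 2)`, where `C₂ = ∏_{p > 2} (1 - 1 / (p - 1) ^ 2)` is the twin prime
constant.
-/

set_option autoImplicit false

namespace Pool.Agent.Results.MP_92f640_nt.ThinFamilyModuli

open Finset Pool.Agent.H560R3.GB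

/-- The number of ordered representations of `n` as a sum of two primes. -/
noncomputable def goldbach (n : ℕ) : ℕ :=
  Nat.card {w : ℕ × ℕ // w.1.Prime ∧ w.2.Prime ∧ w.1 + w.2 = n}

/-- The conjectured asymptotic `𝒮(n) = 2 C₂ ∏_{p ∣ n, p > 2} (p - 1) / (p - 2) * n / log ^ 2 n`. -/
noncomputable def pred (n : ℕ) : ℝ := sing n * (n / Real.log n ^ 2)

/-- The additive energy of order `h` of a finite family of natural numbers `q i`: the number of
solutions of `q (a 1) + ... + q (a h) = q (b 1) + ... + q (b h)`. -/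
noncomputable def energy (h : ℕ) {ι : Type} [Fintype ι] (q : ι → ℕ) : ℕ :=
  Nat.card {w : (Fin h → ι) × (Fin h → ι) // ∑ j, q (w.1 j) = ∑ j, q (w.2 j)}

/-- The number of representations of `t` as `q (a 1) + ... + q (a h)`. -/
noncomputable def reps (h : ℕ) {ι : Type} [Fintype ι] (q : ι → ℕ) (t : ℕ) : ℕ :=
  Nat.card {a : Fin h → ι // ∑ j, q (a j) = t}

open Classical in
/-- The number of the members `q i` of the family that have an even multiple `n` in `(x / 2, x]` with
`|goldbach n - pred n| > ε * pred n`. -/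
noncomputable def exceptions (ε : ℝ) (x : ℕ) {ι : Type} [Fintype ι] (q : ι → ℕ) : ℕ :=
  (univ.filter (fun i => ∃ n : ℕ, q i ∣ n ∧ Even n ∧ (x : ℝ) / 2 < n ∧ n ≤ x ∧
    ¬ |(goldbach n : ℝ) - pred n| ≤ ε * pred n)).card

lemma goldbach_eq (n : ℕ) : goldbach n = g n := by
  classical
  unfold goldbach g
  rw [← Fintype.card_coe, ← Nat.card_eq_fintype_card]
  apply Nat.card_congr
  apply Equiv.subtypeEquivRight
  intro w
  rw [mem_filter, HasAntidiagonal.mem_antidiagonal]
  tauto

lemma energy_eq (h : ℕ) {ι : Type} [Fintype ι] (q : ι → ℕ) :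
    Pool.Agent.TH935.GF.En h (fun i => (q i : ℤ)) = energy h q := by
  unfold energy Pool.Agent.TH935.GF.En
  apply Nat.card_congr
  apply Equiv.subtypeEquivRight
  intro w
  rw [← Nat.cast_sum, ← Nat.cast_sum, Nat.cast_inj]

lemma reps_eq (h : ℕ) {ι : Type} [Fintype ι] (q : ι → ℕ) (t : ℕ) :
    Pool.Agent.TH935.GF.Rn h (fun i => (q i : ℤ)) t = reps h q t := by
  unfold reps Pool.Agent.TH935.GF.Rn
  apply Nat.card_congr
  apply Equiv.subtypeEquivRight
  intro w
  rw [← Nat.cast_sum, Nat.cast_inj]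

theorem first (h A C U : ℕ) (ε : ℝ) (hε : 0 < ε) :
    ∃ x₀ : ℕ, ∀ x : ℕ, x₀ ≤ x → ∀ (ι : Type) [Fintype ι] (q : ι → ℕ),
      (∀ i, (x : ℝ) / Real.log x ^ A ≤ q i) →
      (energy h q : ℝ) * x ≤ Real.log x ^ C * (Fintype.card ι : ℝ) ^ (2 * h) →
      (exceptions ε x q : ℝ) ≤ Fintype.card ι / Real.log x ^ U := by
  classical
  obtain ⟨N₀, h0⟩ := Pool.Agent.TH345.GBM.mult h A C U ε hε
  refine ⟨N₀, fun x hx ι _ q hq hE => ?_⟩
  rw [← energy_eq] at hE
  unfold exceptions
  apply h0 x hx ι q hq hE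
  intro i hi
  rw [mem_filter] at hi
  obtain ⟨_, n, h1, h2, h3, h4, h5⟩ := hi
  refine ⟨n, h1, h2, h3, h4, ?_⟩
  rw [goldbach_eq] at h5
  exact h5

/-- Let `h`, `A`, `C`, `U` and `ε > 0` be fixed, and let `x` be large. Let `q i`, `i ∈ ι`, be an
arbitrary finite family of moduli with `q i ≥ x / log ^ A x`.

* Suppose that the additive energy of order `h` of the family is at most `log ^ C x` times
  `(#ι) ^ (2 h) / x` (up to the power of the logarithm this is the least possible energy of a family of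
  numbers up to `x`, and the family may have as few as `x ^ (1 / h)` members). Then, for all members
  `q = q i` of the family with at most `#ι / log ^ U x` exceptions, every even multiple `n` of `q` with
  `x / 2 < n ≤ x` satisfies `|g(n) - 𝒮(n)| ≤ ε 𝒮(n)`: there is no exceptional multiple at all.
* In particular this holds if no integer has more than `log ^ C x` representations as a sum of `h`
  members of the family, and `(#ι) ^ h ≥ x / log ^ C x`. -/
theorem result (h A C U : ℕ) (ε : ℝ) (hε : 0 < ε) :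
    (∃ x₀ : ℕ, ∀ x : ℕ, x₀ ≤ x → ∀ (ι : Type) [Fintype ι] (q : ι → ℕ),
      (∀ i, (x : ℝ) / Real.log x ^ A ≤ q i) →
      (energy h q : ℝ) * x ≤ Real.log x ^ C * (Fintype.card ι : ℝ) ^ (2 * h) →
      (exceptions ε x q : ℝ) ≤ Fintype.card ι / Real.log x ^ U) ∧
    (∃ x₀ : ℕ, ∀ x : ℕ, x₀ ≤ x → ∀ (ι : Type) [Fintype ι] (q : ι → ℕ),
      (∀ i, (x : ℝ) / Real.log x ^ A ≤ q i) →
      (∀ t, (reps h q t : ℝ) ≤ Real.log x ^ C) →
      (x : ℝ) ≤ Real.log x ^ C * (Fintype.card ι : ℝ) ^ h →
      (exceptions ε x q : ℝ) ≤ Fintype.card ι / Real.log x ^ U) := by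
  refine ⟨first h A C U ε hε, ?_⟩
  obtain ⟨N₀, h0⟩ := first h A (2 * C) U ε hε
  obtain ⟨N₁, h1⟩ := Pool.Agent.H373R2.T7.ev_L' 1
  refine ⟨N₀ + N₁, fun x hx ι _ q hq hJ hc => ?_⟩
  apply h0 x (by omega) ι q hq
  have hL := h1 x (by omega)
  have hL0 : 0 ≤ Real.log x := by linarith
  have h2 : (energy h q : ℝ) ≤ (Fintype.card ι : ℝ) ^ h * Real.log x ^ C := by
    rw [← energy_eq]
    apply Pool.Agent.TH935.GF.En_le h (fun i => (q i : ℤ)) _
    intro t
    rcases le_or_gt 0 t with ht | ht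
    · obtain ⟨n, rfl⟩ := Int.eq_ofNat_of_zero_le ht
      have := hJ n
      rw [← reps_eq] at this
      exact this
    · have : Pool.Agent.TH935.GF.Rn h (fun i => (q i : ℤ)) t = 0 := by
        unfold Pool.Agent.TH935.GF.Rn
        rw [Nat.card_eq_zero]
        left
        constructor
        rintro ⟨w, hw⟩
        have h3 : 0 ≤ ∑ j, (q (w j) : ℤ) := by positivity
        simp only at hw
        omega
      rw [this]
      simp only [Nat.cast_zero]
      positivity
  calc (energy h q : ℝ) * x ≤ ((Fintype.card ι : ℝ) ^ h * Real.log x ^ C) * (Real.log x ^ C * (Fintype.card ι : ℝ) ^ h) :=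
        mul_le_mul h2 hc (Nat.cast_nonneg _) (by positivity)
    _ = Real.log x ^ (2 * C) * (Fintype.card ι : ℝ) ^ (2 * h) := by ring

end Pool.Agent.Results.MP_92f640_nt.ThinFamilyModuli
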